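import Mathlib

/-!
# Two nonsingular block graphs joined by an edge can be singular
-/

set_option autoImplicit false

namespace Pool.Agent.Results.MP_025d69_co.Eleven

open Matrix Finset

section defs

variable {V : Type*}

/-- a block: a maximal connected subgraph with no cut-vertex -/
def IsBlock (G : SimpleGraph V) (B : G.Subgraph) : Prop :=
  Maximal (fun B : G.Subgraph => B.coe.Connected ∧
    ∀ x ∈ B.verts, (B.deleteVerts {x}).coe.Preconnected) B

/-- a block graph: a connected graph every block of which is complete -/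
def IsBlockGraph (G : SimpleGraph V) : Prop :=
  G.Connected ∧ ∀ B : G.Subgraph, IsBlock G B →
    ∀ x ∈ B.verts, ∀ y ∈ B.verts, x ≠ y → B.Adj x y

/-- a connected subgraph cannot cross a separation away from the separating vertex -/
lemma no_cross (G : SimpleGraph V) (D : G.Subgraph) (hD : D.coe.Preconnected) (x y c : V)
    (hx : x ∈ D.verts) (hy : y ∈ D.verts) (hc : c ∉ D.verts) (W : Set V) (hxW : x ∈ W)
    (hyW : y ∉ W) (hW : ∀ a ∈ W, ∀ b ∉ W, a ≠ c → b ≠ c → ¬ G.Adj a b) : False := by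
  obtain ⟨p⟩ := hD ⟨x, hx⟩ ⟨y, hy⟩
  obtain ⟨e, -, h1, h2⟩ := p.exists_boundary_dart {z : D.verts | z.val ∈ W} hxW hyW
  have h3 : D.Adj e.fst.val e.snd.val := e.adj
  refine hW _ h1 _ h2 ?_ ?_ h3.adj_sub
  · intro h; exact hc (h ▸ e.fst.2)
  · intro h; exact hc (h ▸ e.snd.2)

/-- a sufficient condition -/
theorem isBlockGraph_of (G : SimpleGraph V) (hG : G.Connected)
    (h : ∀ x y, x ≠ y → ¬ G.Adj x y → ∃ (c : V) (W : Set V), c ≠ x ∧ c ≠ y ∧ x ∈ W ∧ y ∉ W ∧
      ∀ a ∈ W, ∀ b ∉ W, a ≠ c → b ≠ c → ¬ G.Adj a b) : IsBlockGraph G := by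
  refine ⟨hG, fun B hB x hx y hy hxy => ?_⟩
  obtain ⟨⟨hB1, hB2⟩, hmax⟩ := hB
  by_cases hadj : G.Adj x y
  · -- the induced subgraph on the same vertices is no larger
    set B' : G.Subgraph := (⊤ : G.Subgraph).induce B.verts with hB'
    have hle : B ≤ B' := by
      constructor
      · exact subset_rfl
      · intro a b hab
        exact ⟨hab.fst_mem, hab.snd_mem, hab.adj_sub⟩
    have hB'1 : B'.coe.Connected := by
      have : B.coe ≤ B'.coe := by
        intro a b hab
        exact hle.2 hab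
      exact hB1.mono this
    have hB'2 : ∀ x ∈ B'.verts, (B'.deleteVerts {x}).coe.Preconnected := by
      intro z hz
      have h1 := hB2 z hz
      have : (B.deleteVerts {z}).coe ≤ (B'.deleteVerts {z}).coe := by
        intro a b hab
        have hab' : (B.deleteVerts {z}).Adj a.val b.val := hab
        rw [SimpleGraph.Subgraph.deleteVerts_adj] at hab'
        change (B'.deleteVerts {z}).Adj a.val b.val
        rw [SimpleGraph.Subgraph.deleteVerts_adj]
        exact ⟨hab'.1, hab'.2.1, hab'.2.2.1, hab'.2.2.2.1, hle.2 hab'.2.2.2.2⟩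
      exact h1.mono this
    have h2 := hmax ⟨hB'1, hB'2⟩ hle
    exact h2.2 ⟨hx, hy, hadj⟩
  · exfalso
    obtain ⟨c, W, hcx, hcy, hxW, hyW, hW⟩ := h x y hxy hadj
    by_cases hc : c ∈ B.verts
    · refine no_cross G (B.deleteVerts {c}) (hB2 c hc) x y c ?_ ?_ ?_ W hxW hyW hW
      · simp [hx, hcx.symm]
      · simp [hy, hcy.symm]
      · simp
    · exact no_cross G B hB1.preconnected x y c hx hy hc W hxW hyW hW

/-- connectedness when every nonzero vertex has a smaller neighbour -/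
lemma conn {n : ℕ} (G : SimpleGraph (Fin (n + 1)))
    (h : ∀ x : Fin (n + 1), x ≠ 0 → ∃ y < x, G.Adj y x) : G.Connected := by
  have h1 : ∀ (k : ℕ) (x : Fin (n + 1)), x.val ≤ k → G.Reachable 0 x := by
    intro k
    induction k with
    | zero =>
      intro x hx
      have : x = 0 := Fin.ext (by simpa using hx)
      rw [this]
    | succ k ih =>
      intro x hx
      by_cases hx0 : x = 0
      · rw [hx0]
      · obtain ⟨y, hy, hyx⟩ := h x hx0
        have hy' : y.val < x.val := hy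
        exact (ih y (by omega)).trans hyx.reachable
  exact { preconnected := fun x y => (h1 _ x le_rfl).symm.trans (h1 _ y le_rfl), nonempty := ⟨0⟩ }

end defs

/-- adjacency of the first graph: the triangles `012`, `134`, `256` -/
def a1 (i j : Fin 7) : Bool :=
  (i, j) ∈ ([(0, 1), (0, 2), (1, 2), (1, 3), (1, 4), (3, 4), (2, 5), (2, 6), (5, 6),
    (1, 0), (2, 0), (2, 1), (3, 1), (4, 1), (4, 3), (5, 2), (6, 2), (6, 5)] :
      List (Fin 7 × Fin 7))

/-- the first graph -/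
def G1 : SimpleGraph (Fin 7) where
  Adj i j := a1 i j = true
  symm := ⟨by decide⟩
  loopless := ⟨by decide⟩

instance : DecidableRel G1.Adj := fun i j => inferInstanceAs (Decidable (a1 i j = true))

/-- adjacency of the second graph: the triangle `012` with the pendant edge `03` -/
def a2 (i j : Fin 4) : Bool :=
  (i, j) ∈ ([(0, 1), (0, 2), (1, 2), (0, 3), (1, 0), (2, 0), (2, 1), (3, 0)] :
      List (Fin 4 × Fin 4))

/-- the second graph -/
def G2 : SimpleGraph (Fin 4) where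
  Adj i j := a2 i j = true
  symm := ⟨by decide⟩
  loopless := ⟨by decide⟩

instance : DecidableRel G2.Adj := fun i j => inferInstanceAs (Decidable (a2 i j = true))

lemma conn1 : G1.Connected := conn G1 (by decide)

lemma conn2 : G2.Connected := conn G2 (by decide)

/-- a separating vertex -/
def c1 (x y : Fin 7) : Fin 7 := if x = 3 ∨ x = 4 ∨ y = 3 ∨ y = 4 then 1 else 2

/-- one side of the separation -/
def w1 (x y : Fin 7) : Finset (Fin 7) :=
  if x = 3 ∨ x = 4 then {3, 4} else if y = 3 ∨ y = 4 then {0, 2, 5, 6}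
  else if x = 5 ∨ x = 6 then {5, 6} else {0, 1, 3, 4}

/-- one side of the separation -/
def w2 (x _y : Fin 4) : Finset (Fin 4) := if x = 3 then {3} else {1, 2}

/-- a separating vertex -/
def c2 (_x _y : Fin 4) : Fin 4 := 0

lemma block1 : IsBlockGraph G1 := by
  refine isBlockGraph_of G1 conn1 ?_
  have h : ∀ x y, x ≠ y → ¬ G1.Adj x y → (c1 x y ≠ x ∧ c1 x y ≠ y ∧ x ∈ w1 x y ∧ y ∉ w1 x y ∧
      ∀ a ∈ w1 x y, ∀ b, b ∉ w1 x y → a ≠ c1 x y → b ≠ c1 x y → ¬ G1.Adj a b) := by
    decide +kernel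
  intro x y hxy hadj
  obtain ⟨h1, h2, h3, h4, h5⟩ := h x y hxy hadj
  exact ⟨c1 x y, (w1 x y : Set (Fin 7)), h1, h2, by simpa using h3, by simpa using h4,
    fun a ha b hb => h5 a (by simpa using ha) b (by simpa using hb)⟩

lemma block2 : IsBlockGraph G2 := by
  refine isBlockGraph_of G2 conn2 ?_
  have h : ∀ x y, x ≠ y → ¬ G2.Adj x y → (c2 x y ≠ x ∧ c2 x y ≠ y ∧ x ∈ w2 x y ∧ y ∉ w2 x y ∧
      ∀ a ∈ w2 x y, ∀ b, b ∉ w2 x y → a ≠ c2 x y → b ≠ c2 x y → ¬ G2.Adj a b) := by
    decide +kernel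
  intro x y hxy hadj
  obtain ⟨h1, h2, h3, h4, h5⟩ := h x y hxy hadj
  exact ⟨c2 x y, (w2 x y : Set (Fin 4)), h1, h2, by simpa using h3, by simpa using h4,
    fun a ha b hb => h5 a (by simpa using ha) b (by simpa using hb)⟩

/-- the rational adjacency matrices -/
def M1 : Matrix (Fin 7) (Fin 7) ℚ := Matrix.of fun i j => if a1 i j then 1 else 0

/-- the rational adjacency matrices -/
def M2 : Matrix (Fin 4) (Fin 4) ℚ := Matrix.of fun i j => if a2 i j then 1 else 0

/-- six times the inverse -/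
def I1 : Matrix (Fin 7) (Fin 7) ℚ :=
  !![3, 3, 3, -3, -3, -3, -3; 3, -1, 1, 1, 1, -1, -1; 3, 1, -1, -1, -1, 1, 1;
    -3, 1, -1, -1, 5, 1, 1; -3, 1, -1, 5, -1, 1, 1; -3, -1, 1, 1, 1, -1, 5; -3, -1, 1, 1, 1, 5, -1]

/-- the inverse -/
def I2 : Matrix (Fin 4) (Fin 4) ℚ := !![0, 0, 0, 1; 0, 0, 1, -1; 0, 1, 0, -1; 1, -1, -1, 2]

lemma inv1 : M1 * I1 = 6 • 1 := by decide +kernel

lemma inv2 : M2 * I2 = 1 := by decide +kernel

lemma adjM1 : G1.adjMatrix ℝ = (algebraMap ℚ ℝ).mapMatrix M1 := by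
  ext i j
  rw [RingHom.mapMatrix_apply, Matrix.map_apply, SimpleGraph.adjMatrix_apply]
  change (if a1 i j = true then (1 : ℝ) else 0) = algebraMap ℚ ℝ (if a1 i j = true then 1 else 0)
  split_ifs <;> simp

lemma adjM2 : G2.adjMatrix ℝ = (algebraMap ℚ ℝ).mapMatrix M2 := by
  ext i j
  rw [RingHom.mapMatrix_apply, Matrix.map_apply, SimpleGraph.adjMatrix_apply]
  change (if a2 i j = true then (1 : ℝ) else 0) = algebraMap ℚ ℝ (if a2 i j = true then 1 else 0)
  split_ifs <;> simp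

lemma det1 : (G1.adjMatrix ℝ).det ≠ 0 := by
  intro h
  have h1 := congrArg Matrix.det (congrArg (algebraMap ℚ ℝ).mapMatrix inv1)
  rw [map_mul, ← adjM1, det_mul, h, zero_mul, map_nsmul, map_one] at h1
  have h2 : (6 : ℕ) • (1 : Matrix (Fin 7) (Fin 7) ℝ) = (6 : ℝ) • 1 := by
    ext i j; simp
  rw [h2, det_smul, det_one] at h1
  norm_num at h1

lemma det2 : (G2.adjMatrix ℝ).det ≠ 0 := by
  intro h
  have h1 := congrArg Matrix.det (congrArg (algebraMap ℚ ℝ).mapMatrix inv2)
  rw [map_mul, ← adjM2, det_mul, h, zero_mul, map_one, det_one] at h1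
  norm_num at h1

/-- the joined graph as a rational matrix -/
def M : Matrix (Fin 7 ⊕ Fin 4) (Fin 7 ⊕ Fin 4) ℚ :=
  Matrix.fromBlocks M1 (Matrix.of fun i j => if i = 0 ∧ j = 3 then 1 else 0)
    (Matrix.of fun i j => if j = 0 ∧ i = 3 then 1 else 0) M2

/-- a kernel vector -/
def kv : Fin 7 ⊕ Fin 4 → ℚ := Sum.elim ![-1, -1, -1, 1, 1, 1, 1] ![1, -1, -1, 2]

lemma M_01 : ∀ i j, M i j = 1 ∨ M i j = 0 := by
  intro i j
  rcases i with i | i <;> rcases j with j | j <;>
    simp only [M, M1, M2, Matrix.fromBlocks_apply₁₁, Matrix.fromBlocks_apply₁₂,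
      Matrix.fromBlocks_apply₂₁, Matrix.fromBlocks_apply₂₂, Matrix.of_apply] <;>
    split_ifs <;> simp

lemma M_kv : M *ᵥ kv = 0 := by decide +kernel

/-- **Two nonsingular block graphs, on `7` and `4` vertices, joined by an edge to a singular
graph.** -/
theorem result : ∃ (V₁ V₂ : Type) (_ : Fintype V₁) (_ : Fintype V₂) (_ : DecidableEq V₁)
    (_ : DecidableEq V₂) (G₁ : SimpleGraph V₁) (G₂ : SimpleGraph V₂) (_ : DecidableRel G₁.Adj)
    (_ : DecidableRel G₂.Adj) (v₁ : V₁) (v₂ : V₂)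
    (_ : DecidableRel ((G₁ ⊕g G₂) ⊔ SimpleGraph.edge (Sum.inl v₁) (Sum.inr v₂)).Adj),
    IsBlockGraph G₁ ∧ IsBlockGraph G₂ ∧ (G₁.adjMatrix ℝ).det ≠ 0 ∧ (G₂.adjMatrix ℝ).det ≠ 0 ∧
      (((G₁ ⊕g G₂) ⊔ SimpleGraph.edge (Sum.inl v₁) (Sum.inr v₂)).adjMatrix ℝ).det = 0 := by
  classical
  refine ⟨Fin 7, Fin 4, inferInstance, inferInstance, inferInstance, inferInstance, G1, G2,
    inferInstance, inferInstance, 0, 3, inferInstance, block1, block2, det1, det2, ?_⟩
  rw [← Matrix.exists_mulVec_eq_zero_iff]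
  refine ⟨fun x => (kv x : ℝ), ?_, ?_⟩
  · intro h
    have := congrFun h (Sum.inl 0)
    simp [kv] at this
  · have e1 : ∀ i j, ((G1 ⊕g G2) ⊔ SimpleGraph.edge (Sum.inl 0) (Sum.inr 3)).Adj i j ↔
        M i j = 1 := by
      intro i j
      simp only [SimpleGraph.sup_adj, SimpleGraph.edge_adj, SimpleGraph.sum_adj]
      rcases i with i | i <;> rcases j with j | j
      · simp [M, M1, G1]
      · simp [M, eq_comm]
      · simp [M, eq_comm, and_comm]
      · simp [M, M2, G2]
    have e2 := M_01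
    have e0 : ((G1 ⊕g G2) ⊔ SimpleGraph.edge (Sum.inl 0) (Sum.inr 3)).adjMatrix ℝ
        = (algebraMap ℚ ℝ).mapMatrix M := by
      ext i j
      rw [RingHom.mapMatrix_apply, Matrix.map_apply, SimpleGraph.adjMatrix_apply]
      rcases e2 i j with h | h
      · rw [if_pos ((e1 i j).mpr h), h]; simp
      · rw [if_neg (fun hc => by rw [(e1 i j).mp hc] at h; norm_num at h), h]; simp
    ext i
    have h := congrFun M_kv i
    rw [e0]
    simp only [Matrix.mulVec, dotProduct, RingHom.mapMatrix_apply, Matrix.map_apply, eq_ratCast,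
      Pi.zero_apply] at h ⊢
    exact_mod_cast congrArg (fun q : ℚ => (q : ℝ)) h

end Pool.Agent.Results.MP_025d69_co.Eleven
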